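import Pool.Agent.Helper44.RA.V1

/-! Project ZB: the pigeonhole. -/

set_option autoImplicit false

namespace Pool.ZB

open Finset Pool.RA

variable {ι : Type} [Fintype ι]

/-- The number `t k_i`, `t = a D / k_max`. -/
noncomputable def yv (k : ι → ℤ) (j0 : ι) (D a : ℕ) (i : ι) : ℝ :=
  ((a * D : ℕ) : ℝ) / |(k j0 : ℝ)| * k i

/-- Its integral part. -/
noncomputable def fl (k : ι → ℤ) (j0 : ι) (D a : ℕ) (i : ι) : ℤ := ⌊yv k j0 D a i⌋

omit [Fintype ι] in
theorem yv_j0 (k : ι → ℤ) (j0 : ι) (hj : k j0 ≠ 0) (D a : ℕ) :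
    yv k j0 D a j0 = ((((a * D : ℕ) : ℤ) * (k j0).sign : ℤ) : ℝ) := by
  have h0 : |(k j0 : ℝ)| ≠ 0 := abs_ne_zero.2 (by exact_mod_cast hj)
  unfold yv
  rw [div_mul_eq_mul_div, div_eq_iff h0]
  have h1 : ((k j0).sign : ℤ) * |k j0| = k j0 := Int.sign_mul_abs _
  have h2 : (((k j0).sign : ℤ) : ℝ) * |(k j0 : ℝ)| = k j0 := by exact_mod_cast h1
  push_cast
  rw [mul_assoc _ _ |(k j0 : ℝ)|, h2]

omit [Fintype ι] in
theorem fl_j0 (k : ι → ℤ) (j0 : ι) (hj : k j0 ≠ 0) (D a : ℕ) :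
    fl k j0 D a j0 = ((a * D : ℕ) : ℤ) * (k j0).sign := by
  unfold fl
  rw [yv_j0 k j0 hj D a, Int.floor_intCast]

omit [Fintype ι] in
theorem fl_zero (k : ι → ℤ) (j0 : ι) (D a : ℕ) (i : ι) (hi : k i = 0) : fl k j0 D a i = 0 := by
  unfold fl yv
  rw [hi]
  simp

open Classical in
/-- The pigeonhole: `A` multiples of the direction `k` (rounded down), times `σ`, in boxes of side `1/K`
and arbitrary further classes. -/
theorem pigeon (k : ι → ℤ) (j0 : ι) (hj : k j0 ≠ 0) (D A K : ℕ) (hD : 1 ≤ D) (hK : 1 ≤ K)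
    {σ κ : Type} [Fintype σ] [Fintype κ] (g : σ → ι → ℤ) (hg : ∀ s, g s j0 = 0)
    (cls : ℕ → σ → κ) (hcls : ∀ a s s', cls a s = cls a s' → s = s')
    (hcard : K ^ (univ.filter (fun i => k i ≠ 0)).card * Fintype.card κ < A * Fintype.card σ) :
    ∃ (a a' : ℕ) (s s' : σ), a' < a ∧ a < A ∧ cls a s = cls a' s' ∧
      (fl k j0 D a j0 - fl k j0 D a' j0 + (g s j0 - g s' j0) ≠ 0) ∧
      ∀ i, |((fl k j0 D a i - fl k j0 D a' i : ℤ) : ℝ) -
        ((a - a' : ℕ) : ℝ) * D / |(k j0 : ℝ)| * k i| ≤ if k i = 0 then 0 else (1 / K : ℝ) := by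
  have hK0 : (0 : ℝ) < K := by exact_mod_cast hK
  -- the box of a real number in `[0,1)`
  let bx : ℝ → Fin K := fun t => ⟨⌊Int.fract t * K⌋₊, by
    rw [Nat.floor_lt (mul_nonneg (Int.fract_nonneg _) hK0.le)]
    calc Int.fract t * K < 1 * K := mul_lt_mul_of_pos_right (Int.fract_lt_one _) hK0
      _ = K := one_mul _⟩
  have hbx : ∀ t t' : ℝ, bx t = bx t' → |Int.fract t - Int.fract t'| ≤ 1 / K := by
    intro t t' h
    have h1 : ⌊Int.fract t * K⌋₊ = ⌊Int.fract t' * K⌋₊ := congrArg Fin.val h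
    have h2 := Nat.floor_le (mul_nonneg (Int.fract_nonneg t) hK0.le)
    have h3 := Nat.lt_floor_add_one (Int.fract t * K)
    have h4 := Nat.floor_le (mul_nonneg (Int.fract_nonneg t') hK0.le)
    have h5 := Nat.lt_floor_add_one (Int.fract t' * K)
    rw [h1] at h2 h3
    rw [abs_le]
    constructor
    · rw [neg_le_sub_iff_le_add, ← sub_le_iff_le_add', le_div_iff₀ hK0]
      linarith
    · rw [le_div_iff₀ hK0]
      linarith
  let F : Fin A × σ → ({i // k i ≠ 0} → Fin K) × κ := fun q =>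
    (fun i => bx (yv k j0 D q.1 i.1), cls q.1 q.2)
  have hc : Fintype.card (({i // k i ≠ 0} → Fin K) × κ) < Fintype.card (Fin A × σ) := by
    rw [Fintype.card_prod, Fintype.card_prod, Fintype.card_fun, Fintype.card_fin, Fintype.card_fin]
    refine lt_of_le_of_lt (le_of_eq ?_) hcard
    congr 2
    exact Fintype.card_subtype _
  obtain ⟨q, q', hqq, hF⟩ := Fintype.exists_ne_map_eq_of_card_lt F hc
  have hF1 : ∀ i : {i // k i ≠ 0}, bx (yv k j0 D q.1 i.1) = bx (yv k j0 D q'.1 i.1) :=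
    fun i => congrFun (congrArg Prod.fst hF) i
  have hF2 : cls q.1 q.2 = cls q'.1 q'.2 := congrArg Prod.snd hF
  have hne : (q.1 : ℕ) ≠ q'.1 := by
    intro h
    apply hqq
    have h1 : q.1 = q'.1 := Fin.ext h
    refine Prod.ext h1 (hcls q.1 _ _ ?_)
    rw [hF2, h]
  -- the conclusion for an ordered pair
  have key : ∀ q q' : Fin A × σ, (∀ i : {i // k i ≠ 0}, bx (yv k j0 D q.1 i.1) = bx (yv k j0 D q'.1 i.1)) →
      cls q.1 q.2 = cls q'.1 q'.2 → (q'.1 : ℕ) < q.1 → ∃ (a a' : ℕ) (s s' : σ), a' < a ∧ a < A ∧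
      cls a s = cls a' s' ∧
      (fl k j0 D a j0 - fl k j0 D a' j0 + (g s j0 - g s' j0) ≠ 0) ∧
      ∀ i, |((fl k j0 D a i - fl k j0 D a' i : ℤ) : ℝ) -
        ((a - a' : ℕ) : ℝ) * D / |(k j0 : ℝ)| * k i| ≤ if k i = 0 then 0 else (1 / K : ℝ) := by
    intro q q' h1 h2 h3
    refine ⟨q.1, q'.1, q.2, q'.2, h3, q.1.2, h2, ?_, fun i => ?_⟩
    · rw [fl_j0 k j0 hj, fl_j0 k j0 hj, hg, hg, sub_zero, add_zero, ← sub_mul]
      refine mul_ne_zero ?_ (fun h => hj (Int.sign_eq_zero_iff_zero.1 h))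
      have h4 : (q'.1 : ℕ) * D < (q.1 : ℕ) * D := Nat.mul_lt_mul_of_pos_right h3 hD
      have h5 : (((q'.1 : ℕ) * D : ℕ) : ℤ) < (((q.1 : ℕ) * D : ℕ) : ℤ) := by exact_mod_cast h4
      intro h6
      linarith
    · split_ifs with hi
      · rw [fl_zero k j0 D _ i hi, fl_zero k j0 D _ i hi, hi]
        simp
      · have h4 := hbx _ _ (h1 ⟨i, hi⟩)
        have h5 : ((fl k j0 D q.1 i - fl k j0 D q'.1 i : ℤ) : ℝ) -
            (((q.1 : ℕ) - (q'.1 : ℕ) : ℕ) : ℝ) * D / |(k j0 : ℝ)| * k i =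
            -(Int.fract (yv k j0 D q.1 i) - Int.fract (yv k j0 D q'.1 i)) := by
          unfold fl Int.fract
          have h6 : yv k j0 D q.1 i - yv k j0 D q'.1 i =
              (((q.1 : ℕ) - (q'.1 : ℕ) : ℕ) : ℝ) * D / |(k j0 : ℝ)| * k i := by
            unfold yv
            rw [Nat.cast_sub h3.le]
            push_cast
            ring
          rw [← h6]
          push_cast
          ring
        rw [h5, abs_neg]
        exact h4
  rcases lt_or_gt_of_ne hne with h | h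
  · exact key q' q (fun i => (hF1 i).symm) hF2.symm h
  · exact key q q' hF1 hF2 h

end Pool.ZB
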